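import Mathlib
import Pool.Agent.R608.CircleFamily
import Pool.Agent.R608.CircleLimit

/-!
# The circle homeomorphisms with irrational rotation number form a Haar null set
-/

set_option autoImplicit false

open Set Filter Topology MeasureTheory
open Pool.Agent.R608.CircleFamily Pool.Agent.R608.CircleLimit

namespace Pool.Agent.Results.MP_e0518f_lc.IrrationalRotationHaarNull

/-- The circle `ℝ / ℤ`. -/
abbrev Circ : Type := UnitAddCircle

/-- `F` (an increasing bijection of `ℝ` with `F (x + 1) = F x + 1`) is a lift of `f`. -/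
def IsLift (F : CircleDeg1Liftˣ) (f : Circ ≃ₜ Circ) : Prop :=
  ∀ x : ℝ, f (x : Circ) = ((F x : ℝ) : Circ)

lemma IsLift.mul {F G : CircleDeg1Liftˣ} {f g : Circ ≃ₜ Circ} (hF : IsLift F f)
    (hG : IsLift G g) : IsLift (F * G) (f * g) := by
  intro x
  change f (g (x : Circ)) = ((F (G x) : ℝ) : Circ)
  rw [hG, hF]

lemma IsLift.inv {F : CircleDeg1Liftˣ} {f : Circ ≃ₜ Circ} (hF : IsLift F f) :
    IsLift F⁻¹ f⁻¹ := by
  intro x
  have h1 : f (((F⁻¹ : CircleDeg1Liftˣ) x : ℝ) : Circ) = (x : Circ) := by
    rw [hF, CircleDeg1Lift.units_apply_inv_apply]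
  change f.symm (x : Circ) = _
  rw [← h1, Homeomorph.symm_apply_apply]

lemma isLift_one : IsLift 1 1 := fun _ => rfl

/-- The group `H_+(S¹)` of orientation preserving homeomorphisms of the circle: those with an
increasing lift. -/
def Hplus : Subgroup (Circ ≃ₜ Circ) where
  carrier := {f | ∃ F : CircleDeg1Liftˣ, IsLift F f}
  mul_mem' := by
    rintro f g ⟨F, hF⟩ ⟨G, hG⟩
    exact ⟨F * G, hF.mul hG⟩
  one_mem' := ⟨1, isLift_one⟩
  inv_mem' := by
    rintro f ⟨F, hF⟩
    exact ⟨F⁻¹, hF.inv⟩

/-- The map `f ↦ (f, f⁻¹)`. -/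
def pair (f : Hplus) : C(Circ, Circ) × C(Circ, Circ) :=
  (⟨f.1, f.1.continuous⟩, ⟨f.1.symm, f.1.symm.continuous⟩)

/-- The topology of uniform convergence of `f` and `f⁻¹` (`C(Circ, Circ)` carries the topology of
uniform convergence). -/
instance : TopologicalSpace Hplus :=
  TopologicalSpace.induced pair inferInstance

/-- The irrational rotation number set `I`. -/
def IrrationalRotation : Set Hplus :=
  {f | ∃ F : CircleDeg1Liftˣ, IsLift F f.1 ∧
    Irrational (CircleDeg1Lift.translationNumber (F : CircleDeg1Lift))}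

/-- Haar null sets in the sense of Christensen. -/
def IsHaarNull {G : Type} [Group G] [TopologicalSpace G] (A : Set G) : Prop :=
  ∃ B : Set G, A ⊆ B ∧ @MeasurableSet G (borel G) B ∧
    ∃ μ : @Measure G (borel G), @IsProbabilityMeasure G (borel G) μ ∧
      ∀ g h : G, μ ((fun x => g * x * h) '' B) = 0

lemma continuous_mk : Continuous ((↑) : ℝ → Circ) := AddCircle.continuous_mk' 1

lemma openQuotient : IsOpenQuotientMap ((↑) : ℝ → Circ) := QuotientAddGroup.isOpenQuotientMap_mk

lemma coe_add_one (x : ℝ) : ((x + 1 : ℝ) : Circ) = (x : Circ) := AddCircle.coe_add_period 1 x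

/-- The map of the circle induced by a lift. -/
noncomputable def down (F : CircleDeg1Liftˣ) : Circ → Circ :=
  Function.Periodic.lift (f := fun x : ℝ => ((F x : ℝ) : Circ)) (c := 1) fun x => by
    change ((F (x + 1) : ℝ) : Circ) = ((F x : ℝ) : Circ)
    rw [CircleDeg1Lift.map_add_one, coe_add_one]

lemma down_coe (F : CircleDeg1Liftˣ) (x : ℝ) : down F (x : Circ) = ((F x : ℝ) : Circ) := rfl

lemma continuous_down_family {Z : Type} [TopologicalSpace Z] (f : Z → CircleDeg1Liftˣ)
    (hf : Continuous fun p : Z × ℝ => f p.1 p.2) :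
    Continuous fun p : Z × Circ => down (f p.1) p.2 := by
  have h : IsOpenQuotientMap (Prod.map (id : Z → Z) ((↑) : ℝ → Circ)) :=
    IsOpenQuotientMap.id.prodMap openQuotient
  rw [← h.continuous_comp_iff]
  exact continuous_mk.comp hf

lemma continuous_down (F : CircleDeg1Liftˣ) : Continuous (down F) := by
  have h := continuous_down_family (Z := Unit) (fun _ => F)
    ((unit_continuous F).comp continuous_snd)
  exact h.comp (continuous_const (y := ()) |>.prodMk continuous_id)

lemma down_down_inv (F : CircleDeg1Liftˣ) (s : Circ) : down F (down F⁻¹ s) = s := by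
  obtain ⟨x, rfl⟩ := QuotientAddGroup.mk_surjective s
  rw [down_coe, down_coe, CircleDeg1Lift.units_apply_inv_apply]

lemma down_inv_down (F : CircleDeg1Liftˣ) (s : Circ) : down F⁻¹ (down F s) = s := by
  obtain ⟨x, rfl⟩ := QuotientAddGroup.mk_surjective s
  rw [down_coe, down_coe, CircleDeg1Lift.units_inv_apply_apply]

/-- The homeomorphism of the circle induced by a lift. -/
noncomputable def proj (F : CircleDeg1Liftˣ) : Hplus :=
  ⟨{ toFun := down F
     invFun := down F⁻¹
     left_inv := down_inv_down F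
     right_inv := down_down_inv F
     continuous_toFun := continuous_down F
     continuous_invFun := continuous_down F⁻¹ }, F, fun _ => rfl⟩

lemma isLift_proj (F : CircleDeg1Liftˣ) : IsLift F (proj F).1 := fun _ => rfl

lemma continuous_proj {Z : Type} [TopologicalSpace Z] (f : Z → CircleDeg1Liftˣ)
    (hf : Continuous fun p : Z × ℝ => f p.1 p.2)
    (hf' : Continuous fun p : Z × ℝ => ((f p.1)⁻¹ : CircleDeg1Liftˣ) p.2) :
    Continuous fun z => proj (f z) := by
  refine continuous_induced_rng.2 ?_
  refine Continuous.prodMk ?_ ?_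
  · refine ContinuousMap.continuous_of_continuous_uncurry _ ?_
    exact continuous_down_family f hf
  · refine ContinuousMap.continuous_of_continuous_uncurry _ ?_
    exact continuous_down_family (fun z => (f z)⁻¹) hf'

lemma continuous_eval : Continuous fun p : Hplus × Circ => p.1.1 p.2 := by
  have h0 : Continuous pair := continuous_induced_dom
  have h1 : Continuous fun f : Hplus => (⟨f.1, f.1.continuous⟩ : C(Circ, Circ)) :=
    continuous_fst.comp h0
  have h2 : Continuous fun p : Hplus × Circ => ((⟨p.1.1, p.1.1.continuous⟩ : C(Circ, Circ)), p.2) :=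
    (h1.comp continuous_fst).prodMk continuous_snd
  exact (ContinuousEval.continuous_eval (F := C(Circ, Circ))).comp h2

/-- The homeomorphisms without periodic points. -/
def NoPer : Set Hplus := {f | ∀ q : ℕ, 0 < q → ∀ s : Circ, (f.1)^[q] s ≠ s}

lemma isLift_iterate {F : CircleDeg1Liftˣ} {f : Circ ≃ₜ Circ} (hF : IsLift F f) (q : ℕ) (x : ℝ) :
    f^[q] (x : Circ) = (((F ^ q : CircleDeg1Liftˣ) : CircleDeg1Lift) x : ℝ) := by
  induction q generalizing x with
  | zero => rfl
  | succ q ih =>
    rw [Function.iterate_succ_apply, hF, ih, pow_succ]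
    rfl

lemma not_hasPer {F : CircleDeg1Liftˣ} {f : Hplus} (hF : IsLift F f.1) (hf : f ∈ NoPer) :
    ¬ HasPer F := by
  rintro ⟨q, hq, z, x, hx⟩
  refine hf q hq (x : Circ) ?_
  rw [isLift_iterate hF, hx]
  have h1 : ((z : ℝ) : Circ) = 0 := by
    rw [AddCircle.coe_eq_zero_iff]
    exact ⟨z, by simp⟩
  rw [AddCircle.coe_add, h1, add_zero]

lemma irrational_subset : IrrationalRotation ⊆ NoPer := by
  rintro f ⟨F, hF, hirr⟩ q hq s hs
  obtain ⟨x, rfl⟩ := QuotientAddGroup.mk_surjective s
  change (f.1)^[q] (x : Circ) = (x : Circ) at hs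
  rw [isLift_iterate hF] at hs
  have h1 : (((((F ^ q : CircleDeg1Liftˣ) : CircleDeg1Lift) x - x : ℝ)) : Circ) = 0 := by
    rw [AddCircle.coe_sub, hs, sub_self]
  rw [AddCircle.coe_eq_zero_iff] at h1
  obtain ⟨z, hz⟩ := h1
  have h2 : ((F : CircleDeg1Lift) ^ q) x = x + z := by
    rw [zsmul_eq_mul, mul_one] at hz
    have h3 : (((F ^ q : CircleDeg1Liftˣ) : CircleDeg1Lift) x : ℝ) = x + z := by linarith
    rwa [Units.val_pow_eq_pow_val] at h3
  have h4 := CircleDeg1Lift.translationNumber_of_map_pow_eq_add_int (F : CircleDeg1Lift) h2 hq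
  rw [h4] at hirr
  exact hirr ⟨(z : ℚ) / q, by push_cast; rfl⟩

lemma continuous_iterate {Z : Type} [TopologicalSpace Z] (f : Z → Circ → Circ)
    (hf : Continuous fun p : Z × Circ => f p.1 p.2) (q : ℕ) :
    Continuous fun p : Z × Circ => (f p.1)^[q] p.2 := by
  induction q with
  | zero => exact continuous_snd
  | succ q ih =>
    have h := ih.comp (continuous_fst.prodMk hf)
    exact h

lemma translate_eq (g h : Hplus) (B : Set Hplus) :
    (fun x => g * x * h) '' B = {f | g⁻¹ * f * h⁻¹ ∈ B} := by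
  ext f
  constructor
  · rintro ⟨b, hb, rfl⟩
    change g⁻¹ * (g * b * h) * h⁻¹ ∈ B
    have : g⁻¹ * (g * b * h) * h⁻¹ = b := by group
    rwa [this]
  · intro hf
    exact ⟨_, hf, by group⟩

lemma measurableSet_translate (g h : Hplus) :
    @MeasurableSet Hplus (borel Hplus) {f | g * f * h ∈ NoPer} := by
  let _ : MeasurableSpace Hplus := borel Hplus
  have _ : BorelSpace Hplus := ⟨rfl⟩
  have e : {f : Hplus | g * f * h ∈ NoPer} =
      ⋂ q : ℕ, {f : Hplus | 0 < q → ∀ s : Circ, ((g * f * h : Hplus).1)^[q] s ≠ s} := by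
    ext f
    simp only [mem_iInter]
    rfl
  rw [e]
  refine MeasurableSet.iInter fun q => ?_
  by_cases hq : 0 < q
  · have hcont : Continuous fun p : Hplus × Circ => (g * p.1 * h : Hplus).1 p.2 := by
      have h1 : Continuous fun p : Hplus × Circ => g.1 (p.1.1 (h.1 p.2)) :=
        g.1.continuous.comp (continuous_eval.comp
          (continuous_fst.prodMk (h.1.continuous.comp continuous_snd)))
      exact h1
    have hcl : IsClosed {p : Hplus × Circ | ((g * p.1 * h : Hplus).1)^[q] p.2 = p.2} :=
      isClosed_eq (continuous_iterate (fun f : Hplus => ((g * f * h : Hplus).1 : Circ → Circ))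
        hcont q) continuous_snd
    have h1 := (isClosedMap_fst_of_compactSpace _ hcl).measurableSet.compl
    convert h1 using 1
    ext f
    constructor
    · rintro hf ⟨⟨f', s⟩, hs, rfl⟩
      exact hf hq s hs
    · intro hf _ s hs
      exact hf ⟨(f, s), hs, rfl⟩
  · have h2 : {f : Hplus | 0 < q → ∀ s : Circ, ((g * f * h : Hplus).1)^[q] s ≠ s} = univ :=
      eq_univ_of_forall fun f h3 => absurd h3 hq
    rw [h2]
    exact MeasurableSet.univ

/-- **Theorem.** The set of orientation preserving homeomorphisms of the circle with irrational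
rotation number is Haar null. -/
theorem result : IsHaarNull IrrationalRotation := by
  let _ : MeasurableSpace Hplus := borel Hplus
  have _ : BorelSpace Hplus := ⟨rfl⟩
  obtain ⟨Θ, _, _, _, _, μ, Ψ, hμ, h1, h2, h3⟩ := exists_measure
  have hc : Continuous fun θ => proj (Ψ θ) := continuous_proj Ψ h1 h2
  refine ⟨NoPer, irrational_subset, ?_, μ.map fun θ => proj (Ψ θ), ?_, fun g h => ?_⟩
  · have h4 := measurableSet_translate 1 1
    simpa using h4
  · exact Measure.isProbabilityMeasure_map hc.measurable.aemeasurable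
  · rw [translate_eq, Measure.map_apply hc.measurable (measurableSet_translate g⁻¹ h⁻¹)]
    obtain ⟨G, hG⟩ := (g⁻¹).2
    obtain ⟨H, hH⟩ := (h⁻¹).2
    refine measure_mono_null ?_ (h3 G H)
    intro θ hθ
    exact not_hasPer (F := G * Ψ θ * H) (f := g⁻¹ * proj (Ψ θ) * h⁻¹)
      ((hG.mul (isLift_proj (Ψ θ))).mul hH) hθ

end Pool.Agent.Results.MP_e0518f_lc.IrrationalRotationHaarNull
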